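import Pool.Agent.Helper25.GF.Goals

/-!
# Project GF, packet EXI: a good choice exists
-/

set_option autoImplicit false

namespace Pool.Agent.Helper79.GF

open Finset Pool.Agent.Helper25.GF

open Classical in
theorem pr_mul {d n : ℕ} (E : Om d n → Prop) :
    Pr E * Fintype.card (Om d n) = ∑ ω : Om d n, if E ω then (1 : ℝ) else 0 := by
  have h0 : (Fintype.card (Om d n) : ℝ) ≠ 0 := by
    have : 0 < Fintype.card (Om d n) := Fintype.card_pos_iff.2 ⟨fun _ _ => 0⟩
    exact_mod_cast this.ne'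
  unfold Pr
  rw [div_mul_cancel₀ _ h0, Finset.sum_boole]

theorem exi (h1 : EX1) (h2 : EX2) : EXI := by
  classical
  intro d g δ η hδ hη
  obtain ⟨T₀, hT₀, h1⟩ := h1 d δ η hδ hη
  obtain ⟨K, hK, h2⟩ := h2 d g
  refine ⟨T₀, K, hT₀, hK, fun n => ?_⟩
  have h1 := h1 n
  have h2 := h2 n
  by_contra hcon
  push Not at hcon
  set E : Om d n → Prop := fun ω => ∃ T : ℕ, T₀ ≤ T ∧ T ≤ n + 1 ∧ ∃ A : Finset ℕ, A ⊆ range T ∧
    Idp ω A ∧ 0 < A.card ∧ η * T ≤ A.card ∧
    (1 + δ) * A.card * Real.log (Real.exp 1 * T / A.card) < d * En A T with hE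
  have hN : 0 < (Fintype.card (Om d n) : ℝ) := by
    have : 0 < Fintype.card (Om d n) := Fintype.card_pos_iff.2 ⟨fun _ _ => 0⟩
    exact_mod_cast this
  have key : ∀ ω : Om d n, (1 : ℝ) ≤ (if E ω then (1 : ℝ) else 0) +
      (∑ t ∈ Icc 1 n, (if Bad ω g t then (1 : ℝ) else 0) / t) / K := by
    intro ω
    have hS : 0 ≤ ∑ t ∈ Icc 1 n, (if Bad ω g t then (1 : ℝ) else 0) / t := by
      apply Finset.sum_nonneg
      intro t _
      apply div_nonneg
      · split_ifs
        · exact zero_le_one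
        · exact le_refl _
      · exact Nat.cast_nonneg _
    by_cases hEω : E ω
    · rw [if_pos hEω]
      have := div_nonneg hS hK.le
      linarith
    · rw [if_neg hEω, zero_add, le_div_iff₀ hK, one_mul]
      have h3 : ∀ T : ℕ, T₀ ≤ T → T ≤ n + 1 → ∀ A : Finset ℕ, A ⊆ range T → Idp ω A →
          0 < A.card → η * T ≤ A.card →
          d * En A T ≤ (1 + δ) * A.card * Real.log (Real.exp 1 * T / A.card) := by
        intro T hT hT' A hA hI hc hη'
        by_contra hlt
        push Not at hlt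
        exact hEω ⟨T, hT, hT', A, hA, hI, hc, hη', hlt⟩
      obtain ⟨B, hB, hBad, hlt⟩ := hcon ω h3
      refine hlt.le.trans ?_
      calc ∑ t ∈ B, (1 : ℝ) / t = ∑ t ∈ B, (if Bad ω g t then (1 : ℝ) else 0) / t :=
            Finset.sum_congr rfl (fun t ht => by rw [if_pos (hBad t ht)])
        _ ≤ _ := by
            apply Finset.sum_le_sum_of_subset_of_nonneg hB
            intro t _ _
            apply div_nonneg
            · split_ifs
              · exact zero_le_one
              · exact le_refl _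
            · exact Nat.cast_nonneg _
  have hsum := Finset.sum_le_sum (fun ω (_ : ω ∈ (Finset.univ : Finset (Om d n))) => key ω)
  rw [Finset.sum_const, Finset.card_univ, nsmul_eq_mul, mul_one, Finset.sum_add_distrib,
    ← pr_mul E, ← Finset.sum_div, Finset.sum_comm] at hsum
  have h4 : ∑ t ∈ Icc 1 n, ∑ ω : Om d n, (if Bad ω g t then (1 : ℝ) else 0) / t =
      (∑ t ∈ Icc 1 n, Pr (fun ω : Om d n => Bad ω g t) / t) * Fintype.card (Om d n) := by
    rw [Finset.sum_mul]
    apply Finset.sum_congr rfl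
    intro t _
    rw [← Finset.sum_div, ← pr_mul (fun ω : Om d n => Bad ω g t)]
    ring
  rw [h4] at hsum
  have h5 : (∑ t ∈ Icc 1 n, Pr (fun ω : Om d n => Bad ω g t) / t) * Fintype.card (Om d n) / K ≤
      1 / 4 * Fintype.card (Om d n) := by
    rw [div_le_iff₀ hK]
    have := mul_le_mul_of_nonneg_right h2 hN.le
    calc _ ≤ K / 4 * Fintype.card (Om d n) := this
      _ = _ := by ring
  have h6 : Pr E * Fintype.card (Om d n) ≤ 1 / 4 * Fintype.card (Om d n) :=
    mul_le_mul_of_nonneg_right h1 hN.le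
  linarith

end Pool.Agent.Helper79.GF
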